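import Pool.Agent.ZPU.StmtsB

/-! Squad ZPU, row LC0 (local theorem, no special coordinate). -/

set_option autoImplicit false

namespace Pool.Agent.ZPU.H49

open Polynomial Pool.Agent.ZPU Pool.Agent.ZPT Pool.Agent.ZP3

section

variable {K : Type} [NormedField K]

theorem norm_int_dvd_le [CharZero K] [IsUltrametricDist K] {p : ℕ} (hp : p.Prime) (hE : Ext p K)
    {κ : ℤ} (h : (p : ℤ) ∣ κ) : ‖(κ : K)‖ ≤ (p : ℝ)⁻¹ := by
  obtain ⟨m, rfl⟩ := h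
  rw [Int.cast_mul, Int.cast_natCast, norm_mul, Pool.Agent.ZP3.H51.norm_p hp hE]
  have h1 : ‖(m : K)‖ ≤ 1 := IsUltrametricDist.norm_intCast_le_one K m
  have h2 : (0 : ℝ) ≤ (p : ℝ)⁻¹ := inv_nonneg.mpr (Nat.cast_nonneg p)
  nlinarith [norm_nonneg (m : K)]

theorem md_pow {x y : K} {r : ℝ} (hr0 : 0 < r) (hr1 : r < 1) (hx : ‖x‖ = r) (hy : ‖y‖ = r)
    (h : Md x y) : Ro (y / x) := by
  obtain ⟨u, v, hu, hv, huv⟩ := h
  have h1 : r ^ u = r ^ v := by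
    have := congrArg norm huv
    rwa [norm_pow, norm_pow, hx, hy] at this
  have h2 : u = v := by
    rcases lt_trichotomy u v with h3 | h3 | h3
    · exact absurd h1 (pow_lt_pow_right_of_lt_one₀ hr0 hr1 h3).ne'
    · exact h3
    · exact absurd h1 (pow_lt_pow_right_of_lt_one₀ hr0 hr1 h3).ne
  subst h2
  have hx0 : x ≠ 0 := by
    intro h0
    rw [h0, norm_zero] at hx
    exact hr0.ne hx
  refine ⟨u, hu, ?_⟩
  rw [div_pow, huv, div_self (pow_ne_zero _ ?_)]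
  intro h0
  rw [h0, norm_zero] at hy
  exact hr0.ne hy

theorem pair_near [IsUltrametricDist K] {l x y fx fy gx gy : K} {c : ℝ} (hl : l ≠ 0)
    (hx : x ≠ 0) (hy : y ≠ 0) (hxy : ‖y / x‖ ≤ 1) (hgx : ‖gx‖ ≤ 1) (hgy : ‖gy‖ ≤ 1)
    (h1 : ‖(l * x)⁻¹ * gx - fx‖ ≤ c) (h2 : ‖(l * y)⁻¹ * gy - fy‖ ≤ c) :
    ‖fx * gy - y / x * (fy * gx)‖ ≤ c := by
  have e : fx * gy - y / x * (fy * gx) =
      y / x * (((l * y)⁻¹ * gy - fy) * gx) - ((l * x)⁻¹ * gx - fx) * gy := by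
    field_simp
    ring
  have hc : 0 ≤ c := (norm_nonneg _).trans h1
  rw [e]
  refine Pool.Agent.ZP3.H51.sub_le' ?_ ?_
  · rw [norm_mul, norm_mul]
    calc ‖y / x‖ * (‖(l * y)⁻¹ * gy - fy‖ * ‖gx‖) ≤ 1 * (c * 1) := by
          gcongr
      _ = c := by ring
  · rw [norm_mul]
    calc ‖(l * x)⁻¹ * gx - fx‖ * ‖gy‖ ≤ c * 1 := by gcongr
      _ = c := by ring

end

theorem lc0 (tca : TCAStmt) (ind : INDStmt) (c0 : C0Stmt) : LC0Stmt := by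
  intro U hU p hp K _ _ _ _ _ hE d n F G hpd hG l hl a b c e hba hbc hbe hea hec
  obtain ⟨h, κ, ν, hh, hκ, hν, h1, -, -⟩ := tca U hU p hp (by omega) K hE l hl
  set F' : Fin n → ℤ[X] := fun i => F i - C κ * G i with hF'
  have hbar : ∀ i, bar p (F' i) = bar p (F i) := by
    intro i
    have h2 : (Int.castRingHom (ZMod p)) κ = 0 := (ZMod.intCast_zmod_eq_zero_iff_dvd κ p).mpr hκ
    simp only [bar, hF', Polynomial.map_sub, Polynomial.map_mul, map_C, h2, C_0, zero_mul,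
      sub_zero]
  have hd' : ∀ i, (F' i).natDegree ≤ d := fun i =>
    (natDegree_sub_le _ _).trans (max_le (hG.dF i) ((natDegree_C_mul_le _ _).trans (hG.dG i)))
  have hG' : Good p d F' G := by
    refine ⟨hd', hG.dG, fun i => ?_, fun i j => ?_, fun i j hij => ?_, hG.GG⟩
    · rw [hbar]
      exact hG.nc i
    · rw [hbar]
      exact hG.FG i j
    · rw [hbar, hbar]
      exact hG.FF i j hij
  have hI := ind p hp d n F' G (by omega) hG' a b c e hba hbc hbe hea hec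
  have hdeg : ∀ A B : ℤ[X], A.natDegree ≤ d → B.natDegree ≤ d → (A * B).natDegree ≤ 2 * d :=
    fun A B hA hB => natDegree_mul_le.trans (by omega)
  obtain ⟨M, hM1, hM⟩ := c0 p hp K hE (2 * d) _ _ _ _ (by omega)
    (hdeg _ _ (hd' a) (hG.dG b)) (hdeg _ _ (hd' b) (hG.dG a)) (hdeg _ _ (hd' c) (hG.dG e))
    (hdeg _ _ (hd' e) (hG.dG c)) hI
  refine ⟨M, hM1, ?_⟩
  intro t t₀ q hte htt hq hab hce
  have hp1 : (1 : ℝ) < p := by exact_mod_cast hp.one_lt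
  have hpi0 : (0 : ℝ) < (p : ℝ)⁻¹ := by positivity
  have hpi1 : (p : ℝ)⁻¹ < 1 := inv_lt_one_of_one_lt₀ hp1
  have hr0 : (0 : ℝ) < ((p : ℝ)⁻¹) ^ h := pow_pos hpi0 h
  have hr1 : ((p : ℝ)⁻¹) ^ h < 1 := pow_lt_one₀ hpi0.le hpi1 (by omega)
  have hl0 : (l : K) ≠ 0 := by
    intro h0
    rw [Rat.cast_eq_zero] at h0
    rw [h0, padicNorm.zero] at hl
    norm_num at hl
  have hκn : ‖(κ : K)‖ ≤ (p : ℝ)⁻¹ := norm_int_dvd_le hp hE hκ
  have haev : ∀ i, aeval t (F' i) = aeval t (F i) - (κ : K) * aeval t (G i) := by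
    intro i
    simp only [hF', map_sub, map_mul, eq_intCast, map_intCast]
  have hdat : ∀ i, (i = a ∨ i = b ∨ i = c ∨ i = e) → ‖q i‖ = ((p : ℝ)⁻¹) ^ h ∧
      ‖((l : K) * q i)⁻¹ * aeval t (G i) - aeval t (F' i)‖ ≤ ((p : ℝ)⁻¹) ^ 2 ∧
      ‖aeval t (F' i)‖ = 1 ∧ ‖aeval t (G i)‖ = 1 := by
    intro i hi
    obtain ⟨hf, hg, hq0, hq1, hqj⟩ := hq i hi
    obtain ⟨k1, k2, -⟩ := h1 _ _ _ hf hg hq0 hq1 hqj
    rw [haev]
    refine ⟨k1, k2, ?_, hg⟩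
    refine Pool.Agent.ZP3.H51.norm_one_of_near hf ?_
    rw [sub_sub_cancel_left, norm_neg, norm_mul, hg, mul_one]
    exact lt_of_le_of_lt hκn hpi1
  have hne : ∀ i, (i = a ∨ i = b ∨ i = c ∨ i = e) → q i ≠ 0 := by
    intro i hi h0
    have h2 := (hdat i hi).1
    rw [h0, norm_zero] at h2
    exact hr0.ne h2
  have pair : ∀ x y, (x = a ∨ x = b ∨ x = c ∨ x = e) → (y = a ∨ y = b ∨ y = c ∨ y = e) →
      Md (q x) (q y) → Ro (q y / q x) ∧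
      ‖aeval t (F' x * G y) - q y / q x * aeval t (F' y * G x)‖ ≤ ((p : ℝ)⁻¹) ^ 2 := by
    intro x y hx hy hxy
    obtain ⟨x1, x2, x3, x4⟩ := hdat x hx
    obtain ⟨y1, y2, y3, y4⟩ := hdat y hy
    refine ⟨md_pow hr0 hr1 x1 y1 hxy, ?_⟩
    rw [map_mul, map_mul]
    refine pair_near hl0 (hne x hx) (hne y hy) ?_ x4.le y4.le x2 y2
    rw [norm_div, x1, y1, div_self hr0.ne']
  have ha : a = a ∨ a = b ∨ a = c ∨ a = e := Or.inl rfl
  have hb : b = a ∨ b = b ∨ b = c ∨ b = e := Or.inr (Or.inl rfl)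
  have hc : c = a ∨ c = b ∨ c = c ∨ c = e := Or.inr (Or.inr (Or.inl rfl))
  have he : e = a ∨ e = b ∨ e = c ∨ e = e := Or.inr (Or.inr (Or.inr rfl))
  have hn : ∀ x y, (x = a ∨ x = b ∨ x = c ∨ x = e) → (y = a ∨ y = b ∨ y = c ∨ y = e) →
      ‖aeval t (F' x * G y)‖ = 1 := by
    intro x y hx hy
    rw [map_mul, norm_mul, (hdat x hx).2.2.1, (hdat y hy).2.2.2, mul_one]
  obtain ⟨r1, n1⟩ := pair a b ha hb hab
  obtain ⟨r2, n2⟩ := pair c e hc he hce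
  have hfin := hM t t₀ (q b / q a) (q e / q c) hte htt r1 r2 (hn a b ha hb) (hn b a hb ha)
    (hn c e hc he) (hn e c he hc) n1 n2
  rw [div_pow, div_eq_one_iff_eq (pow_ne_zero _ (hne a ha))] at hfin
  exact hfin.symm

end Pool.Agent.ZPU.H49
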