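import Pool.Agent.ZPU.StmtsB

/-! Squad ZPU, row REV (both charts). -/

set_option autoImplicit false

namespace Pool.Agent.ZPU.H49

open Polynomial Pool.Agent.ZPU

theorem bar_reflect (p N : ℕ) (A : ℤ[X]) : bar p (reflect N A) = reflect N (bar p A) := by
  unfold bar
  rw [reflect_map]

theorem nd_reflect {N : ℕ} {R : Type} [Semiring R] {f : R[X]} (hf : f.natDegree ≤ N) :
    (reflect N f).natDegree ≤ N := by
  rw [natDegree_le_iff_coeff_eq_zero]
  intro j hj
  rw [coeff_reflect, revAt_eq_self_of_lt hj]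
  exact coeff_eq_zero_of_natDegree_lt (lt_of_le_of_lt hf hj)

theorem bar_coeff_ne {p : ℕ} {A : ℤ[X]} {j : ℕ} (h : ¬ (p : ℤ) ∣ A.coeff j) :
    (bar p A).coeff j ≠ 0 := by
  unfold bar
  rw [coeff_map]
  intro h2
  apply h
  rw [← ZMod.intCast_zmod_eq_zero_iff_dvd]
  exact h2

theorem coeff_zero_reflect {N : ℕ} {R : Type} [Semiring R] (f : R[X]) :
    (reflect N f).coeff N = f.coeff 0 := by
  rw [coeff_reflect, revAt_le le_rfl, Nat.sub_self]

theorem aux_ev {L : Type} [Field L] {t : L} (ht : t ≠ 0) {N : ℕ} {f : ℤ[X]}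
    (hf : f.natDegree ≤ N) : aeval t f = t ^ N * aeval t⁻¹ (reflect N f) := by
  let _ := invertibleOfNonzero ht
  have h := eval₂_reflect_mul_pow (algebraMap ℤ L) t N f hf
  rw [invOf_eq_inv] at h
  rw [aeval_def, aeval_def, ← h, mul_comm]

theorem rev (rfl' : RFLStmt) : REVStmt := by
  intro p hp d n D F G H
  have : Fact p.Prime := ⟨hp⟩
  have key : ∀ (i j : Fin n) (A B : ℤ[X]), A.natDegree ≤ D i → B.natDegree ≤ D j →
      (¬ (p : ℤ) ∣ A.coeff (D i) ∨ ¬ (p : ℤ) ∣ B.coeff (D j)) → IsCoprime (bar p A) (bar p B) →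
      IsCoprime (bar p (reflect (D i) A)) (bar p (reflect (D j) B)) := by
    intro i j A B hA hB hc hco
    rw [bar_reflect, bar_reflect]
    refine rfl' (ZMod p) (D i) (D j) (bar p A) (bar p B) (natDegree_map_le.trans hA)
      (natDegree_map_le.trans hB) hco ?_
    rcases hc with hc | hc
    · exact Or.inl (bar_coeff_ne hc)
    · exact Or.inr (bar_coeff_ne hc)
  refine ⟨⟨fun i => (H.dF i).trans (H.Dd i), fun i => (H.dG i).trans (H.Dd i), ?_, H.FG, H.FF,
    H.GG⟩, ⟨fun i => (nd_reflect (H.dF i)).trans (H.Dd i),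
    fun i => (nd_reflect (H.dG i)).trans (H.Dd i), ?_, ?_, ?_, ?_⟩, ?_⟩
  · intro i
    have h1 := H.D1 i
    rcases H.cFG i i with h | h
    · exact Or.inl (lt_of_lt_of_le h1 (le_natDegree_of_ne_zero (bar_coeff_ne h)))
    · exact Or.inr (lt_of_lt_of_le h1 (le_natDegree_of_ne_zero (bar_coeff_ne h)))
  · intro i
    have h1 := H.D1 i
    by_cases hF : (bar p (F i)).coeff 0 = 0
    · by_cases hG : (bar p (G i)).coeff 0 = 0
      · exfalso
        have h2 := X_dvd_iff.mpr hF
        have h3 := X_dvd_iff.mpr hG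
        exact not_isUnit_X ((H.FG i i).isUnit_of_dvd' h2 h3)
      · refine Or.inr (lt_of_lt_of_le h1 (le_natDegree_of_ne_zero ?_))
        rw [bar_reflect, coeff_zero_reflect]
        exact hG
    · refine Or.inl (lt_of_lt_of_le h1 (le_natDegree_of_ne_zero ?_))
      rw [bar_reflect, coeff_zero_reflect]
      exact hF
  · exact fun i j => key i j _ _ (H.dF i) (H.dG j) (H.cFG i j) (H.FG i j)
  · exact fun i j hij => key i j _ _ (H.dF i) (H.dF j) (H.cFF i j hij) (H.FF i j hij)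
  · exact fun i j hij => key i j _ _ (H.dG i) (H.dG j) (H.cGG i j hij) (H.GG i j hij)
  · intro L _ _ t ht i
    exact ⟨aux_ev ht (H.dF i), aux_ev ht (H.dG i)⟩

end Pool.Agent.ZPU.H49
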